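import Pool.Agent.H69.LQ.Targets1

/-!
# MP_8f7db2_an, row PG: pigeonhole
-/

open MeasureTheory Metric Set
open scoped ENNReal
open Pool.Agent.H85.LK (E adm lam Ann)
open Pool.Agent.H69.LQ

namespace Pool.Agent.H11.LQ1

theorem pf_PG : T_PG := by
  intro ε G hε
  have h1 : (1 : ℝ) < 1 + ε := by linarith
  obtain ⟨n, hn⟩ := pow_unbounded_of_one_lt G h1
  refine ⟨2 * (n + 1), by omega, ?_⟩
  intro b hb0 hb
  by_cases h : ∃ i, i + 2 ≤ 2 * (n + 1) ∧ b i ≤ (1 + ε) * b (i + 2)
  · exact Or.inl h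
  right
  push Not at h
  have key : ∀ k : ℕ, k ≤ n + 1 → (1 + ε) ^ k * b (2 * k) ≤ b 0 := by
    intro k
    induction k with
    | zero =>
      intro _
      simp
    | succ k ih =>
      intro hk
      have h2 := ih (by omega)
      have h3 := h (2 * k) (by omega)
      have h4 : (1 + ε) ^ (k + 1) * b (2 * (k + 1)) = (1 + ε) ^ k * ((1 + ε) * b (2 * k + 2)) := by
        rw [pow_succ, show 2 * (k + 1) = 2 * k + 2 by ring]
        ring
      rw [h4]
      refine le_trans (mul_le_mul_of_nonneg_left h3.le (by positivity)) h2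
  have h5 := key (n + 1) le_rfl
  refine le_trans (mul_le_mul_of_nonneg_right ?_ (hb0 _)) h5
  rw [pow_succ]
  have h6 : (0 : ℝ) < (1 + ε) ^ n := by positivity
  nlinarith

end Pool.Agent.H11.LQ1
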